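import Pool.Agent.Helper92.Ru.GoalsV

/-! Bound at finite places (packet EvalFin). -/

set_option autoImplicit false

open NumberField MvPolynomial

namespace Pool.Agent.Helper53.Ru

open Pool.Agent.Helper92.Ru

theorem place_int_le {k : Type} [Field k] [NumberField k] (v : FinitePlace k) {x : k}
    (hx : IsIntegral ℤ x) : v x ≤ 1 :=
  SInt.of_int (T := (∅ : Finset (FinitePlace k))) (⟨x, hx⟩ : 𝓞 k) v (by simp)

/-- an integral multiplier which is a unit at `v`, for one element -/
theorem mult_one (hGL : GenLoc) (k : Type) [Field k] [NumberField k] (v : FinitePlace k) (u : k)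
    (hu : v u ≤ 1) : ∃ s : k, IsIntegral ℤ s ∧ v s = 1 ∧ IsIntegral ℤ (s * u) := by
  have hx : (![1, u] : Fin 2 → k) ≠ 0 := by
    intro h
    have := congrFun h 0
    simp at this
  obtain ⟨y, s, hy, hw, hs, hint⟩ := hGL k k 1 v ![1, u] hx
  have hv : v y = 1 := by
    rw [hw v (fun z => Iff.rfl)]
    apply le_antisymm
    · apply ciSup_le
      intro j
      fin_cases j
      · simp
      · simpa using hu
    · have h1 : BddAbove (Set.range fun j : Fin 2 => v (![1, u] j)) := (Set.finite_range _).bddAbove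
      have h2 := le_ciSup h1 0
      simpa using h2
  refine ⟨(s : k) / y, ?_, ?_, ?_⟩
  · have h0 := hint 0
    simpa using h0
  · rw [map_div₀, hs, hv, div_one]
  · have h1 := hint 1
    have h2 : (s : k) / y * u = algebraMap k k (s : k) * (![1, u] : Fin 2 → k) 1 / y := by
      simp
      ring
    rw [h2]
    exact h1

/-- an integral multiplier which is a unit at `v`, for finitely many elements -/
theorem mult_fin (hGL : GenLoc) (k : Type) [Field k] [NumberField k] (v : FinitePlace k)
    {α : Type} (S : Finset α) (u : α → k) (hu : ∀ i ∈ S, v (u i) ≤ 1) :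
    ∃ s : k, IsIntegral ℤ s ∧ v s = 1 ∧ ∀ i ∈ S, IsIntegral ℤ (s * u i) := by
  classical
  induction S using Finset.induction_on with
  | empty => exact ⟨1, isIntegral_one, by simp, by simp⟩
  | insert a S ha ih =>
    obtain ⟨s, h1, h2, h3⟩ := ih fun i hi => hu i (Finset.mem_insert_of_mem hi)
    obtain ⟨s', h1', h2', h3'⟩ := mult_one hGL k v (u a) (hu a (Finset.mem_insert_self _ _))
    refine ⟨s * s', h1.mul h1', by rw [map_mul, h2, h2', one_mul], ?_⟩
    intro i hi
    rcases Finset.mem_insert.mp hi with h | h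
    · subst h
      have : s * s' * u i = s * (s' * u i) := by ring
      rw [this]
      exact h1.mul h3'
    · have : s * s' * u i = s' * (s * u i) := by ring
      rw [this]
      exact h1'.mul (h3 i h)

section
variable {k : Type} [Field k] [NumberField k] {L : Type} [Field L] [NumberField L] [Algebra k L]
  {d n : ℕ}

theorem evx_sum (σ : Fin d → (L →ₐ[k] AlgebraicClosure k)) (x : Fin (n + 1) → L) (f : BB k d n) :
    evx σ x f = ∑ e ∈ f.support, algebraMap k _ (coeff e f) *
      ∏ p : Fin d × Fin (n + 1), (σ p.1 (x p.2)) ^ e p := by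
  unfold evx
  rw [MvPolynomial.aeval_def, MvPolynomial.eval₂_eq']

/-- homogeneity -/
theorem evx_mul (σ : Fin d → (L →ₐ[k] AlgebraicClosure k)) (y : L) (x : Fin (n + 1) → L) (m : ℕ)
    (f : BB k d n) (hf : MHom m f) :
    evx σ (fun j => y * x j) f = (∏ j, σ j y) ^ m * evx σ x f := by
  rw [evx_sum, evx_sum, Finset.mul_sum]
  apply Finset.sum_congr rfl
  intro e he
  have h1 : ∏ p : Fin d × Fin (n + 1), (σ p.1 (y * x p.2)) ^ e p
      = (∏ p : Fin d × Fin (n + 1), (σ p.1 y) ^ e p) *
        ∏ p : Fin d × Fin (n + 1), (σ p.1 (x p.2)) ^ e p := by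
    rw [← Finset.prod_mul_distrib]
    apply Finset.prod_congr rfl
    intro p _
    rw [map_mul, mul_pow]
  have h2 : ∏ p : Fin d × Fin (n + 1), (σ p.1 y) ^ e p = (∏ j, σ j y) ^ m := by
    rw [Fintype.prod_prod_type, ← Finset.prod_pow]
    apply Finset.prod_congr rfl
    intro j _
    show ∏ t : Fin (n + 1), (σ j) y ^ e (j, t) = (σ j) y ^ m
    rw [Finset.prod_pow_eq_pow_sum, hf e he j]
  rw [h1, h2]
  ring

theorem XFin_nonneg (x : Fin (n + 1) → L) (v : FinitePlace k) : 0 ≤ XFin x v := by
  unfold XFin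
  apply finprod_nonneg
  intro w
  apply finprod_nonneg
  intro _
  exact Real.iSup_nonneg fun j => apply_nonneg w _

theorem norm_prod (σ : Fin d ≃ (L →ₐ[k] AlgebraicClosure k)) (y : L) :
    ∏ j, σ j y = algebraMap k _ (Algebra.norm k y) := by
  rw [Algebra.norm_eq_prod_embeddings k (AlgebraicClosure k) y]
  exact Equiv.prod_comp σ (fun τ => τ y)

end

theorem evalFin : GenLoc → PlNorm → EvalK → EvalFin := by
  classical
  intro hGL hPN _
  intro k _ _ L _ _ _ d n σ x hx v m b f hf hb y hy
  have hX := XFin_nonneg x v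
  have hb0 : 0 ≤ b := (apply_nonneg v _).trans (hb 0)
  rcases eq_or_ne f 0 with hf0 | hf0
  · rw [hf0, map_zero] at hy
    have hy0 : y = 0 := by
      have h1 : algebraMap k (AlgebraicClosure k) y = algebraMap k _ 0 := by rw [← hy, map_zero]
      exact (algebraMap k (AlgebraicClosure k)).injective h1
    rw [hy0, map_zero]
    positivity
  -- normalise the coefficients
  obtain ⟨e0, he0, hmax⟩ := Finset.exists_max_image f.support (fun e => v (coeff e f))
    (MvPolynomial.support_nonempty.mpr hf0)
  obtain ⟨c, hc⟩ : ∃ c : k, c = coeff e0 f := ⟨_, rfl⟩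
  have hc0 : c ≠ 0 := by rw [hc]; exact MvPolynomial.mem_support_iff.mp he0
  have hvc : 0 < v c := FinitePlace.pos_iff.2 hc0
  have hu : ∀ e ∈ f.support, v (coeff e f / c) ≤ 1 := by
    intro e he
    rw [map_div₀, div_le_one hvc, hc]
    exact hmax e he
  obtain ⟨s1, hs1i, hs1v, hs1⟩ := mult_fin hGL k v f.support (fun e => coeff e f / c) hu
  obtain ⟨y0, s0, hy0, hyw, hs0v, hs0⟩ := hGL k L n v x hx
  obtain ⟨x', hx'⟩ : ∃ x' : Fin (n + 1) → L, x' = fun j => x j / y0 := ⟨_, rfl⟩
  have hxx : x = fun j => y0 * x' j := by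
    funext j
    rw [hx']
    field_simp
  have hNy0 : Algebra.norm k y0 ≠ 0 := Algebra.norm_ne_zero_iff.mpr hy0
  -- the value at `x`
  have h1 : evx σ x f = algebraMap k _ (Algebra.norm k y0) ^ m * evx σ x' f := by
    rw [← norm_prod σ y0, ← evx_mul σ y0 x' m f hf.1, ← hxx]
  obtain ⟨y2, hy2⟩ : ∃ y2 : k, y2 = y / (Algebra.norm k y0 ^ m * c) := ⟨_, rfl⟩
  have hEx' : evx σ x' f = algebraMap k _ (y2 * c) := by
    have h2 : algebraMap k (AlgebraicClosure k) (Algebra.norm k y0) ^ m ≠ 0 := by
      apply pow_ne_zero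
      rw [map_ne_zero]
      exact hNy0
    apply mul_left_cancel₀ h2
    rw [← h1, hy, ← map_pow, ← map_mul]
    congr 1
    rw [hy2]
    field_simp
  -- integrality
  have h3 : evx σ (fun j => algebraMap k L (s0 : k) * x' j) f
      = algebraMap k _ ((s0 : k) ^ (d * m)) * evx σ x' f := by
    rw [evx_mul σ _ x' m f hf.1]
    congr 1
    have h4 : ∀ j : Fin d, (σ j) (algebraMap k L (s0 : k)) = algebraMap k _ (s0 : k) := fun j =>
      (σ j).commutes _
    simp only [h4, Finset.prod_const, Finset.card_univ, Fintype.card_fin]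
    rw [← pow_mul, map_pow]
  have h5 : IsIntegral ℤ (algebraMap k (AlgebraicClosure k) (s1 / c) *
      evx σ (fun j => algebraMap k L (s0 : k) * x' j) f) := by
    rw [evx_sum, Finset.mul_sum]
    apply IsIntegral.sum
    intro e he
    rw [← mul_assoc, ← map_mul]
    apply IsIntegral.mul
    · have h6 : s1 / c * coeff e f = s1 * (coeff e f / c) := by ring
      rw [h6]
      exact (hs1 e he).map (algebraMap k (AlgebraicClosure k)).toIntAlgHom
    · apply IsIntegral.prod
      intro p _
      apply IsIntegral.pow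
      have h7 : IsIntegral ℤ (algebraMap k L (s0 : k) * x' p.2) := by
        have h8 := hs0 p.2
        rw [hx']
        rw [mul_div_assoc] at h8
        exact h8
      exact h7.map ((σ p.1 : L →+* AlgebraicClosure k)).toIntAlgHom
  have h6 : algebraMap k (AlgebraicClosure k) (s1 / c) *
      evx σ (fun j => algebraMap k L (s0 : k) * x' j) f
      = algebraMap k _ (s1 * (s0 : k) ^ (d * m) * y2) := by
    rw [h3, hEx', ← map_mul, ← map_mul]
    congr 1
    field_simp
  rw [h6] at h5
  have h7 : IsIntegral ℤ (s1 * (s0 : k) ^ (d * m) * y2) :=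
    (isIntegral_algebraMap_iff (algebraMap k (AlgebraicClosure k)).injective).mp h5
  have h8 := place_int_le v h7
  rw [map_mul, map_mul, map_pow, hs1v, hs0v, one_pow, one_mul, one_mul] at h8
  -- conclusion
  have h9 : y = Algebra.norm k y0 ^ m * c * y2 := by
    rw [hy2]
    field_simp
  have h10 : v (Algebra.norm k y0) = XFin x v := by
    rw [hPN k L v y0 hy0]
    unfold XFin
    apply finprod_congr
    intro w
    apply finprod_congr
    intro hw
    exact hyw w hw
  rw [h9, map_mul, map_mul, map_pow, h10]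
  have h11 : v c ≤ b := by rw [hc]; exact hb e0
  have h12 : v c * v y2 ≤ b * 1 := mul_le_mul h11 h8 (apply_nonneg v _) hb0
  calc XFin x v ^ m * v c * v y2 = XFin x v ^ m * (v c * v y2) := by ring
    _ ≤ XFin x v ^ m * (b * 1) := mul_le_mul_of_nonneg_left h12 (pow_nonneg hX m)
    _ = b * XFin x v ^ m := by ring

end Pool.Agent.Helper53.Ru
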